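import Mathlib

/-! # A kernel-checkable criterion for the labelling of injective maps `Fin 4 → V` -/

namespace Pool.Agent.H10.Chr

open Finset

/-- labelling of the injective maps `Fin 4 → V`, compatible with the graph `X` -/
def Labelling {V : Type*} (X : SimpleGraph V) : Prop :=
  ∃ ψ : (Fin 4 → V) → V, (∀ f, ψ f ∈ Set.range f) ∧
    ∀ f g : Fin 4 → V, Function.Injective f → Function.Injective g →
      (∀ i j, i ≠ j → X.Adj (f i) (g j)) → X.Adj (ψ f) (ψ g)

/-- inner check -/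
def inner (n : ℕ) (psi : ℕ → ℕ) (A B C D rs : ℕ) : Bool :=
  (List.range n).all fun x => !A.testBit x || (List.range n).all fun y => !B.testBit y || x == y ||
    (List.range n).all fun z => !C.testBit z || x == z || y == z ||
      (List.range n).all fun w => !D.testBit w || x == w || y == w || z == w ||
        rs.testBit (psi (2 ^ x + 2 ^ y + 2 ^ z + 2 ^ w))

/-- check of one 4-set -/
def chkSet (n : ℕ) (rows psi : ℕ → ℕ) (a b c d : ℕ) : Bool :=
  let s := psi (2 ^ a + 2 ^ b + 2 ^ c + 2 ^ d)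
  (s == a || s == b || s == c || s == d) &&
  ((rows b &&& rows c &&& rows d) == 0 || (rows a &&& rows c &&& rows d) == 0 ||
    (rows a &&& rows b &&& rows d) == 0 || (rows a &&& rows b &&& rows c) == 0 ||
    inner n psi (rows b &&& rows c &&& rows d) (rows a &&& rows c &&& rows d) (rows a &&& rows b &&& rows d)
      (rows a &&& rows b &&& rows c) (rows s))

/-- the whole check -/
def chk4 (n : ℕ) (rows psi : ℕ → ℕ) : Bool :=
  (List.range n).all fun d => (List.range d).all fun c => (List.range c).all fun b => (List.range b).all fun a =>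
    chkSet n rows psi a b c d

lemma inner_sound {n : ℕ} {psi : ℕ → ℕ} {A B C D rs : ℕ} (h : inner n psi A B C D rs = true)
    {x y z w : ℕ} (hx : x < n) (hy : y < n) (hz : z < n) (hw : w < n)
    (hA : A.testBit x = true) (hB : B.testBit y = true) (hC : C.testBit z = true) (hD : D.testBit w = true)
    (hxy : x ≠ y) (hxz : x ≠ z) (hxw : x ≠ w) (hyz : y ≠ z) (hyw : y ≠ w) (hzw : z ≠ w) :
    rs.testBit (psi (2 ^ x + 2 ^ y + 2 ^ z + 2 ^ w)) = true := by
  unfold inner at h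
  have h1 := List.all_eq_true.1 h x (List.mem_range.2 hx)
  simp only [hA, Bool.not_true, Bool.false_or] at h1
  have h2 := List.all_eq_true.1 h1 y (List.mem_range.2 hy)
  simp only [hB, Bool.not_true, Bool.false_or, beq_eq_false_iff_ne.2 hxy] at h2
  have h3 := List.all_eq_true.1 h2 z (List.mem_range.2 hz)
  simp only [hC, Bool.not_true, Bool.false_or, beq_eq_false_iff_ne.2 hxz, beq_eq_false_iff_ne.2 hyz] at h3
  have h4 := List.all_eq_true.1 h3 w (List.mem_range.2 hw)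
  simpa only [hD, Bool.not_true, Bool.false_or, beq_eq_false_iff_ne.2 hxw, beq_eq_false_iff_ne.2 hyw,
    beq_eq_false_iff_ne.2 hzw] using h4

lemma chkSet_mem {n : ℕ} {rows psi : ℕ → ℕ} {a b c d : ℕ} (h : chkSet n rows psi a b c d = true) :
    psi (2 ^ a + 2 ^ b + 2 ^ c + 2 ^ d) = a ∨ psi (2 ^ a + 2 ^ b + 2 ^ c + 2 ^ d) = b ∨
      psi (2 ^ a + 2 ^ b + 2 ^ c + 2 ^ d) = c ∨ psi (2 ^ a + 2 ^ b + 2 ^ c + 2 ^ d) = d := by
  unfold chkSet at h
  simp only [Bool.and_eq_true, Bool.or_eq_true, beq_iff_eq] at h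
  have := h.1
  tauto

lemma chkSet_sound {n : ℕ} {rows psi : ℕ → ℕ} {a b c d : ℕ} (h : chkSet n rows psi a b c d = true)
    {x y z w : ℕ} (hx : x < n) (hy : y < n) (hz : z < n) (hw : w < n)
    (hA : (rows b &&& rows c &&& rows d).testBit x = true) (hB : (rows a &&& rows c &&& rows d).testBit y = true)
    (hC : (rows a &&& rows b &&& rows d).testBit z = true) (hD : (rows a &&& rows b &&& rows c).testBit w = true)
    (hxy : x ≠ y) (hxz : x ≠ z) (hxw : x ≠ w) (hyz : y ≠ z) (hyw : y ≠ w) (hzw : z ≠ w) :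
    (rows (psi (2 ^ a + 2 ^ b + 2 ^ c + 2 ^ d))).testBit (psi (2 ^ x + 2 ^ y + 2 ^ z + 2 ^ w)) = true := by
  unfold chkSet at h
  have nz : ∀ m k : ℕ, m.testBit k = true → m ≠ 0 := by
    rintro m k hm rfl
    simp at hm
  simp only [Bool.and_eq_true, Bool.or_eq_true, beq_iff_eq] at h
  rcases h.2 with (((h' | h') | h') | h') | h'
  · exact absurd h' (nz _ _ hA)
  · exact absurd h' (nz _ _ hB)
  · exact absurd h' (nz _ _ hC)
  · exact absurd h' (nz _ _ hD)
  · exact inner_sound h' hx hy hz hw hA hB hC hD hxy hxz hxw hyz hyw hzw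

lemma chk4_get {n : ℕ} {rows psi : ℕ → ℕ} (h : chk4 n rows psi = true) {a b c d : ℕ} (hab : a < b) (hbc : b < c)
    (hcd : c < d) (hd : d < n) : chkSet n rows psi a b c d = true := by
  unfold chk4 at h
  exact List.all_eq_true.1 (List.all_eq_true.1 (List.all_eq_true.1 (List.all_eq_true.1 h d (List.mem_range.2 hd))
    c (List.mem_range.2 hcd)) b (List.mem_range.2 hbc)) a (List.mem_range.2 hab)

/-- the mask of a map -/
def mask {n : ℕ} (f : Fin 4 → Fin n) : ℕ := ∑ i, 2 ^ (f i : ℕ)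

lemma mask_perm {n : ℕ} (f : Fin 4 → Fin n) (σ : Equiv.Perm (Fin 4)) : mask (f ∘ σ) = mask f :=
  Equiv.sum_comp σ (fun i => 2 ^ (f i : ℕ))

lemma mask_eq {n : ℕ} (f : Fin 4 → Fin n) :
    mask f = 2 ^ (f 0 : ℕ) + 2 ^ (f 1 : ℕ) + 2 ^ (f 2 : ℕ) + 2 ^ (f 3 : ℕ) := by
  simp [mask, Fin.sum_univ_four]

lemma exists_sort {n : ℕ} (f : Fin 4 → Fin n) (hf : Function.Injective f) :
    ∃ σ : Equiv.Perm (Fin 4), StrictMono (f ∘ σ) :=
  ⟨Tuple.sort f, (Tuple.monotone_sort f).strictMono_of_injective (hf.comp (Tuple.sort f).injective)⟩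

theorem labelling_of_chk {n : ℕ} (X : SimpleGraph (Fin n)) (rows psi : ℕ → ℕ)
    (hrows : ∀ x y : Fin n, X.Adj x y ↔ (rows x).testBit y = true) (h : chk4 n rows psi = true) :
    Labelling X := by
  classical
  have key : ∀ f : Fin 4 → Fin n, Function.Injective f → ∃ i, ((f i : Fin n) : ℕ) = psi (mask f) := by
    intro f hf
    obtain ⟨σ, hσ⟩ := exists_sort f hf
    have h0 : (f (σ 0) : ℕ) < f (σ 1) := hσ (show (0 : Fin 4) < 1 by decide)
    have h1 : (f (σ 1) : ℕ) < f (σ 2) := hσ (show (1 : Fin 4) < 2 by decide)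
    have h2 : (f (σ 2) : ℕ) < f (σ 3) := hσ (show (2 : Fin 4) < 3 by decide)
    have hs := chkSet_mem (chk4_get h h0 h1 h2 (f (σ 3)).2)
    have hm : 2 ^ (f (σ 0) : ℕ) + 2 ^ (f (σ 1) : ℕ) + 2 ^ (f (σ 2) : ℕ) + 2 ^ (f (σ 3) : ℕ) = mask f := by
      rw [← mask_perm f σ, mask_eq]; rfl
    rw [hm] at hs
    rcases hs with hs | hs | hs | hs
    · exact ⟨_, hs.symm⟩
    · exact ⟨_, hs.symm⟩
    · exact ⟨_, hs.symm⟩
    · exact ⟨_, hs.symm⟩
  refine ⟨fun f => if hf : Function.Injective f then f (key f hf).choose else f 0, ?_, ?_⟩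
  · intro f
    by_cases hf : Function.Injective f
    · simp only [dif_pos hf]; exact ⟨_, rfl⟩
    · simp only [dif_neg hf]; exact ⟨_, rfl⟩
  · intro f g hf hg hfg
    simp only [dif_pos hf, dif_pos hg]
    rw [hrows, (key f hf).choose_spec, (key g hg).choose_spec]
    obtain ⟨σ, hσ⟩ := exists_sort f hf
    have h0 : (f (σ 0) : ℕ) < f (σ 1) := hσ (show (0 : Fin 4) < 1 by decide)
    have h1 : (f (σ 1) : ℕ) < f (σ 2) := hσ (show (1 : Fin 4) < 2 by decide)
    have h2 : (f (σ 2) : ℕ) < f (σ 3) := hσ (show (2 : Fin 4) < 3 by decide)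
    have hm : 2 ^ (f (σ 0) : ℕ) + 2 ^ (f (σ 1) : ℕ) + 2 ^ (f (σ 2) : ℕ) + 2 ^ (f (σ 3) : ℕ) = mask f := by
      rw [← mask_perm f σ, mask_eq]; rfl
    have hm' : 2 ^ (g (σ 0) : ℕ) + 2 ^ (g (σ 1) : ℕ) + 2 ^ (g (σ 2) : ℕ) + 2 ^ (g (σ 3) : ℕ) = mask g := by
      rw [← mask_perm g σ, mask_eq]; rfl
    have hadj : ∀ i j : Fin 4, i ≠ j → (rows (f (σ i))).testBit (g (σ j)) = true := fun i j hij =>
      (hrows _ _).1 (hfg _ _ (fun e => hij (σ.injective e)))
    have hne : ∀ i j : Fin 4, i ≠ j → (g (σ i) : ℕ) ≠ g (σ j) := fun i j hij e =>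
      hij (σ.injective (hg (Fin.ext e)))
    have := chkSet_sound (chk4_get h h0 h1 h2 (f (σ 3)).2) (g (σ 0)).2 (g (σ 1)).2 (g (σ 2)).2 (g (σ 3)).2
      (by rw [Nat.testBit_and, Nat.testBit_and, hadj 1 0 (by decide), hadj 2 0 (by decide), hadj 3 0 (by decide)]; rfl)
      (by rw [Nat.testBit_and, Nat.testBit_and, hadj 0 1 (by decide), hadj 2 1 (by decide), hadj 3 1 (by decide)]; rfl)
      (by rw [Nat.testBit_and, Nat.testBit_and, hadj 0 2 (by decide), hadj 1 2 (by decide), hadj 3 2 (by decide)]; rfl)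
      (by rw [Nat.testBit_and, Nat.testBit_and, hadj 0 3 (by decide), hadj 1 3 (by decide), hadj 2 3 (by decide)]; rfl)
      (hne 0 1 (by decide)) (hne 0 2 (by decide)) (hne 0 3 (by decide)) (hne 1 2 (by decide)) (hne 1 3 (by decide))
      (hne 2 3 (by decide))
    rw [hm, hm'] at this
    exact this

end Pool.Agent.H10.Chr
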