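import Mathlib
import Pool.Agent.H41.Chr.Base

/-! # A kernel-checkable criterion for selectors of injective maps `Fin 5 → V` -/

namespace Pool.Agent.H10.Chr

open Finset Pool.Agent.H41.Chr

/-- all set bits of `m` satisfy `p` (`k` is fuel) -/
def allBits (p : ℕ → Bool) : ℕ → ℕ → Bool
  | 0, _ => true
  | k + 1, m => m == 0 || (p (Nat.log2 m) && allBits p k (m ^^^ (2 ^ Nat.log2 m)))

lemma allBits_sound (p : ℕ → Bool) : ∀ (k m : ℕ), m < 2 ^ k → allBits p k m = true →
    ∀ x, m.testBit x = true → p x = true := by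
  intro k
  induction k with
  | zero =>
    intro m hm _ x hx
    have : m = 0 := by simpa using hm
    rw [this] at hx; simp at hx
  | succ k ih =>
    intro m hm h x hx
    have hm0 : m ≠ 0 := by rintro rfl; simp at hx
    simp only [allBits, Bool.or_eq_true, beq_iff_eq, Bool.and_eq_true] at h
    rcases h with h | ⟨h1, h2⟩
    · exact absurd h hm0
    · by_cases hxl : x = Nat.log2 m
      · rw [hxl]; exact h1
      · have hlog : Nat.log2 m < k + 1 := (Nat.log2_lt hm0).2 hm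
        have hlow : m ^^^ (2 ^ Nat.log2 m) < 2 ^ Nat.log2 m := by
          apply Nat.lt_pow_two_of_testBit
          intro i hi
          rw [Nat.testBit_xor, Nat.testBit_two_pow]
          rcases hi.eq_or_lt with hi | hi
          · subst hi
            rw [Nat.testBit_log2 hm0]; simp
          · have : m < 2 ^ i := lt_of_lt_of_le (Nat.lt_log2_self (n := m)) (Nat.pow_le_pow_right (by norm_num) hi)
            rw [Nat.testBit_lt_two_pow this]
            simp; omega
        refine ih _ (lt_of_lt_of_le hlow (Nat.pow_le_pow_right (by norm_num) (by omega))) h2 x ?_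
        rw [Nat.testBit_xor, Nat.testBit_two_pow, hx]
        simp; omega

/-- inner check -/
def inner5 (n : ℕ) (psi : ℕ → ℕ) (A B C D E rs : ℕ) : Bool :=
  allBits (fun x => allBits (fun y => x == y ||
    allBits (fun z => x == z || y == z ||
      allBits (fun w => x == w || y == w || z == w ||
        allBits (fun v => x == v || y == v || z == v || w == v ||
          rs.testBit (psi (2 ^ x + 2 ^ y + 2 ^ z + 2 ^ w + 2 ^ v))) n E) n D) n C) n B) n A

def memb (s a b c d e : ℕ) : Bool := s == a || s == b || s == c || s == d || s == e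

/-- check of one 5-set -/
def chkSet5 (n : ℕ) (rows psi : ℕ → ℕ) (a b c d e : ℕ) : Bool :=
  (rows b &&& rows c &&& rows d &&& rows e) == 0 || (rows a &&& rows c &&& rows d &&& rows e) == 0 ||
    (rows a &&& rows b &&& rows d &&& rows e) == 0 || (rows a &&& rows b &&& rows c &&& rows e) == 0 ||
    (rows a &&& rows b &&& rows c &&& rows d) == 0 ||
    (memb (psi (2 ^ a + 2 ^ b + 2 ^ c + 2 ^ d + 2 ^ e)) a b c d e &&
    inner5 n psi (rows b &&& rows c &&& rows d &&& rows e) (rows a &&& rows c &&& rows d &&& rows e)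
      (rows a &&& rows b &&& rows d &&& rows e) (rows a &&& rows b &&& rows c &&& rows e)
      (rows a &&& rows b &&& rows c &&& rows d) (rows (psi (2 ^ a + 2 ^ b + 2 ^ c + 2 ^ d + 2 ^ e))))

/-- the whole check -/
def chk5 (n : ℕ) (rows psi : ℕ → ℕ) : Bool :=
  (List.range n).all fun e => (List.range e).all fun d => (List.range d).all fun c =>
    (rows c &&& rows d &&& rows e) == 0 || (List.range c).all fun b =>
      (rows b &&& rows c &&& rows d &&& rows e) == 0 || (List.range b).all fun a =>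
        chkSet5 n rows psi a b c d e

lemma inner5_sound {n : ℕ} {psi : ℕ → ℕ} {A B C D E rs : ℕ} (h : inner5 n psi A B C D E rs = true)
    (bA : A < 2 ^ n) (bB : B < 2 ^ n) (bC : C < 2 ^ n) (bD : D < 2 ^ n) (bE : E < 2 ^ n)
    {x y z w v : ℕ}
    (hA : A.testBit x = true) (hB : B.testBit y = true) (hC : C.testBit z = true) (hD : D.testBit w = true)
    (hE : E.testBit v = true)
    (hxy : x ≠ y) (hxz : x ≠ z) (hxw : x ≠ w) (hyz : y ≠ z) (hyw : y ≠ w) (hzw : z ≠ w)
    (hxv : x ≠ v) (hyv : y ≠ v) (hzv : z ≠ v) (hwv : w ≠ v) :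
    rs.testBit (psi (2 ^ x + 2 ^ y + 2 ^ z + 2 ^ w + 2 ^ v)) = true := by
  unfold inner5 at h
  have h1 := allBits_sound _ _ _ bA h x hA
  have h2 := allBits_sound _ _ _ bB h1 y hB
  simp only [Bool.false_or, beq_eq_false_iff_ne.2 hxy] at h2
  have h3 := allBits_sound _ _ _ bC h2 z hC
  simp only [Bool.false_or, beq_eq_false_iff_ne.2 hxz, beq_eq_false_iff_ne.2 hyz] at h3
  have h4 := allBits_sound _ _ _ bD h3 w hD
  simp only [Bool.false_or, beq_eq_false_iff_ne.2 hxw, beq_eq_false_iff_ne.2 hyw,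
    beq_eq_false_iff_ne.2 hzw] at h4
  have h5 := allBits_sound _ _ _ bE h4 v hE
  simpa only [Bool.false_or, beq_eq_false_iff_ne.2 hxv, beq_eq_false_iff_ne.2 hyv,
    beq_eq_false_iff_ne.2 hzv, beq_eq_false_iff_ne.2 hwv] using h5

lemma chkSet5_sound {n : ℕ} {rows psi : ℕ → ℕ} {a b c d e : ℕ} (h : chkSet5 n rows psi a b c d e = true)
    (hb : ∀ x, rows x < 2 ^ n)
    {x y z w v : ℕ}
    (hA : (rows b &&& rows c &&& rows d &&& rows e).testBit x = true)
    (hB : (rows a &&& rows c &&& rows d &&& rows e).testBit y = true)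
    (hC : (rows a &&& rows b &&& rows d &&& rows e).testBit z = true)
    (hD : (rows a &&& rows b &&& rows c &&& rows e).testBit w = true)
    (hE : (rows a &&& rows b &&& rows c &&& rows d).testBit v = true)
    (hxy : x ≠ y) (hxz : x ≠ z) (hxw : x ≠ w) (hyz : y ≠ z) (hyw : y ≠ w) (hzw : z ≠ w)
    (hxv : x ≠ v) (hyv : y ≠ v) (hzv : z ≠ v) (hwv : w ≠ v) :
    memb (psi (2 ^ a + 2 ^ b + 2 ^ c + 2 ^ d + 2 ^ e)) a b c d e = true ∧
    (rows (psi (2 ^ a + 2 ^ b + 2 ^ c + 2 ^ d + 2 ^ e))).testBit (psi (2 ^ x + 2 ^ y + 2 ^ z + 2 ^ w + 2 ^ v)) = true := by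
  unfold chkSet5 at h
  have nz : ∀ m k : ℕ, m.testBit k = true → m ≠ 0 := by
    rintro m k hm rfl
    simp at hm
  simp only [Bool.or_eq_true, Bool.and_eq_true, beq_iff_eq] at h
  rcases h with ((((h' | h') | h') | h') | h') | h'
  · exact absurd h' (nz _ _ hA)
  · exact absurd h' (nz _ _ hB)
  · exact absurd h' (nz _ _ hC)
  · exact absurd h' (nz _ _ hD)
  · exact absurd h' (nz _ _ hE)
  · have hand : ∀ A B C D, D < 2 ^ n → (A &&& B &&& C &&& D) < 2 ^ n := fun A B C D h =>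
      lt_of_le_of_lt Nat.and_le_right h
    exact ⟨h'.1, inner5_sound h'.2 (hand _ _ _ _ (hb _)) (hand _ _ _ _ (hb _)) (hand _ _ _ _ (hb _))
      (hand _ _ _ _ (hb _)) (hand _ _ _ _ (hb _)) hA hB hC hD hE hxy hxz hxw hyz hyw hzw hxv hyv hzv hwv⟩

lemma chk5_get {n : ℕ} {rows psi : ℕ → ℕ} (h : chk5 n rows psi = true) {a b c d e : ℕ} (hab : a < b) (hbc : b < c)
    (hcd : c < d) (hde : d < e) (he : e < n) (hne : (rows b &&& rows c &&& rows d &&& rows e) ≠ 0)
    (hne' : (rows c &&& rows d &&& rows e) ≠ 0) : chkSet5 n rows psi a b c d e = true := by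
  unfold chk5 at h
  have h1 := List.all_eq_true.1 (List.all_eq_true.1 (List.all_eq_true.1 h e (List.mem_range.2 he))
    d (List.mem_range.2 hde)) c (List.mem_range.2 hcd)
  simp only [beq_eq_false_iff_ne.2 hne', Bool.false_or] at h1
  have h2 := List.all_eq_true.1 h1 b (List.mem_range.2 hbc)
  simp only [beq_eq_false_iff_ne.2 hne, Bool.false_or] at h2
  exact List.all_eq_true.1 h2 a (List.mem_range.2 hab)

/-- the mask of a map -/
def mask5 {n : ℕ} (f : Fin 5 → Fin n) : ℕ := ∑ i, 2 ^ (f i : ℕ)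

lemma mask5_perm {n : ℕ} (f : Fin 5 → Fin n) (σ : Equiv.Perm (Fin 5)) : mask5 (f ∘ σ) = mask5 f :=
  Equiv.sum_comp σ (fun i => 2 ^ (f i : ℕ))

lemma mask5_eq {n : ℕ} (f : Fin 5 → Fin n) :
    mask5 f = 2 ^ (f 0 : ℕ) + 2 ^ (f 1 : ℕ) + 2 ^ (f 2 : ℕ) + 2 ^ (f 3 : ℕ) + 2 ^ (f 4 : ℕ) := by
  simp [mask5, Fin.sum_univ_five]

lemma exists_sort5 {n : ℕ} (f : Fin 5 → Fin n) (hf : Function.Injective f) :
    ∃ σ : Equiv.Perm (Fin 5), StrictMono (f ∘ σ) :=
  ⟨Tuple.sort f, (Tuple.monotone_sort f).strictMono_of_injective (hf.comp (Tuple.sort f).injective)⟩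

/-- first element of `ord` in the mask -/
def psiO (ord : List ℕ) (m : ℕ) : ℕ := (ord.find? fun v => m.testBit v).getD 0

lemma chk5_main {n : ℕ} {X : SimpleGraph (Fin n)} {rows psi : ℕ → ℕ}
    (hrows : ∀ x y : Fin n, X.Adj x y ↔ (rows x).testBit y = true) (hb : ∀ x, rows x < 2 ^ n)
    (h : chk5 n rows psi = true)
    {f g : Fin 5 → Fin n} (hf : Function.Injective f) (hg : Function.Injective g) (hfg : Cross X f g) :
    (∃ i, (f i : ℕ) = psi (mask5 f)) ∧ (rows (psi (mask5 f))).testBit (psi (mask5 g)) = true := by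
  obtain ⟨σ, hσ⟩ := exists_sort5 f hf
  have h0 : (f (σ 0) : ℕ) < f (σ 1) := hσ (show (0 : Fin 5) < 1 by decide)
  have h1 : (f (σ 1) : ℕ) < f (σ 2) := hσ (show (1 : Fin 5) < 2 by decide)
  have h2 : (f (σ 2) : ℕ) < f (σ 3) := hσ (show (2 : Fin 5) < 3 by decide)
  have h3 : (f (σ 3) : ℕ) < f (σ 4) := hσ (show (3 : Fin 5) < 4 by decide)
  have hm : 2 ^ (f (σ 0) : ℕ) + 2 ^ (f (σ 1) : ℕ) + 2 ^ (f (σ 2) : ℕ) + 2 ^ (f (σ 3) : ℕ) + 2 ^ (f (σ 4) : ℕ) =
      mask5 f := by
    rw [← mask5_perm f σ, mask5_eq]; rfl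
  have hm' : 2 ^ (g (σ 0) : ℕ) + 2 ^ (g (σ 1) : ℕ) + 2 ^ (g (σ 2) : ℕ) + 2 ^ (g (σ 3) : ℕ) + 2 ^ (g (σ 4) : ℕ) =
      mask5 g := by
    rw [← mask5_perm g σ, mask5_eq]; rfl
  have hadj : ∀ i j : Fin 5, i ≠ j → (rows (f (σ i))).testBit (g (σ j)) = true := fun i j hij =>
    (hrows _ _).1 (hfg _ _ (fun e => hij (σ.injective e)))
  have hne : ∀ i j : Fin 5, i ≠ j → (g (σ i) : ℕ) ≠ g (σ j) := fun i j hij e =>
    hij (σ.injective (hg (Fin.ext e)))
  have and4 : ∀ A B C D v : ℕ, A.testBit v = true → B.testBit v = true → C.testBit v = true → D.testBit v = true →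
      (A &&& B &&& C &&& D).testBit v = true := by
    intro A B C D v hA hB hC hD
    rw [Nat.testBit_and, Nat.testBit_and, Nat.testBit_and, hA, hB, hC, hD]; rfl
  have and3 : ∀ A B C v : ℕ, A.testBit v = true → B.testBit v = true → C.testBit v = true →
      (A &&& B &&& C).testBit v = true := by
    intro A B C v hA hB hC
    rw [Nat.testBit_and, Nat.testBit_and, hA, hB, hC]; rfl
  have nz : ∀ m k : ℕ, m.testBit k = true → m ≠ 0 := by
    rintro m k hm rfl
    simp at hm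
  have hget := chk5_get h h0 h1 h2 h3 (f (σ 4)).2
    (nz _ _ (and4 _ _ _ _ _ (hadj 1 0 (by decide)) (hadj 2 0 (by decide)) (hadj 3 0 (by decide)) (hadj 4 0 (by decide))))
    (nz _ _ (and3 _ _ _ _ (hadj 2 0 (by decide)) (hadj 3 0 (by decide)) (hadj 4 0 (by decide))))
  have := chkSet5_sound hget hb
    (and4 _ _ _ _ _ (hadj 1 0 (by decide)) (hadj 2 0 (by decide)) (hadj 3 0 (by decide)) (hadj 4 0 (by decide)))
    (and4 _ _ _ _ _ (hadj 0 1 (by decide)) (hadj 2 1 (by decide)) (hadj 3 1 (by decide)) (hadj 4 1 (by decide)))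
    (and4 _ _ _ _ _ (hadj 0 2 (by decide)) (hadj 1 2 (by decide)) (hadj 3 2 (by decide)) (hadj 4 2 (by decide)))
    (and4 _ _ _ _ _ (hadj 0 3 (by decide)) (hadj 1 3 (by decide)) (hadj 2 3 (by decide)) (hadj 4 3 (by decide)))
    (and4 _ _ _ _ _ (hadj 0 4 (by decide)) (hadj 1 4 (by decide)) (hadj 2 4 (by decide)) (hadj 3 4 (by decide)))
    (hne 0 1 (by decide)) (hne 0 2 (by decide)) (hne 0 3 (by decide)) (hne 1 2 (by decide)) (hne 1 3 (by decide))
    (hne 2 3 (by decide)) (hne 0 4 (by decide)) (hne 1 4 (by decide)) (hne 2 4 (by decide)) (hne 3 4 (by decide))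
  rw [hm, hm'] at this
  refine ⟨?_, this.2⟩
  have hmem := this.1
  simp only [memb, Bool.or_eq_true, beq_iff_eq] at hmem
  rcases hmem with (((hs | hs) | hs) | hs) | hs
  · exact ⟨_, hs.symm⟩
  · exact ⟨_, hs.symm⟩
  · exact ⟨_, hs.symm⟩
  · exact ⟨_, hs.symm⟩
  · exact ⟨_, hs.symm⟩

lemma cross_symm {V : Type*} {X : SimpleGraph V} {j : ℕ} {f g : Fin j → V} (h : Cross X f g) : Cross X g f :=
  fun i i' hii => (h i' i hii.symm).symm

theorem hasSel_of_chk5 {n : ℕ} (X : SimpleGraph (Fin n)) (rows psi : ℕ → ℕ)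
    (hrows : ∀ x y : Fin n, X.Adj x y ↔ (rows x).testBit y = true) (hb : ∀ x, rows x < 2 ^ n)
    (h : chk5 n rows psi = true) :
    HasSel 5 X := by
  classical
  refine ⟨fun f => if hf : ∃ i, (f i : ℕ) = psi (mask5 f) then f hf.choose else f 0, ?_, ?_⟩
  · intro f
    by_cases hf : ∃ i, (f i : ℕ) = psi (mask5 f)
    · exact ⟨_, dif_pos hf⟩
    · exact ⟨_, dif_neg hf⟩
  · intro f g hf hg hfg
    have h1 := chk5_main hrows hb h hf hg hfg
    have h2 := chk5_main hrows hb h hg hf (cross_symm hfg)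
    simp only [dif_pos h1.1, dif_pos h2.1]
    rw [hrows, h1.1.choose_spec, h2.1.choose_spec]
    exact h1.2

end Pool.Agent.H10.Chr
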