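import Mathlib
import Pool.Agent.H41.Chr.Defs

/-! # Homomorphism criterion for chromatic Ramsey numbers -/


namespace Pool.Agent.H10.Chr

open Pool.Agent.H41.Chr Finset

/-- block boundaries -/
def T (K : ℕ) : ℕ → ℕ
  | 0 => 0
  | i + 1 => T K i + K * 2 ^ T K i

lemma T_mono (K : ℕ) : Monotone (T K) := monotone_nat_of_le_succ (fun i => by simp [T])

/-- first pigeonhole -/
lemma stage1 (K : ℕ) (c : ℕ → ℕ → Bool) (i : ℕ) :
    ∃ S : Finset ℕ, S ⊆ Ico (T K i) (T K (i+1)) ∧ K ≤ #S ∧ ∃ p : ℕ → Bool, ∀ x ∈ S, ∀ y, y < T K i → c y x = p y := by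
  classical
  let f : ℕ → (Fin (T K i) → Bool) := fun x y => c y x
  obtain ⟨p, -, hp⟩ := Finset.exists_le_card_fiber_of_mul_le_card_of_maps_to
    (s := Ico (T K i) (T K (i+1))) (t := (univ : Finset (Fin (T K i) → Bool))) (f := f) (n := K)
    (fun _ _ => mem_univ _) univ_nonempty (by simp [T, mul_comm])
  refine ⟨_, filter_subset _ _, hp, fun y => if h : y < T K i then p ⟨y, h⟩ else false, ?_⟩
  intro x hx y hy
  rw [mem_filter] at hx
  show c y x = if h : y < T K i then p ⟨y, h⟩ else false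
  rw [dif_pos hy, ← hx.2]

lemma stage2 (k N : ℕ) (c : ℕ → ℕ → Bool) :
    ∃ (U : ℕ → Finset ℕ) (q : ℕ → ℕ → Bool), (∀ i, U i ⊆ Ico (T (2 ^ N * k) i) (T (2 ^ N * k) (i+1))) ∧
      (∀ i, k ≤ #(U i)) ∧ ∀ i j, i < j → j < N → ∀ x ∈ U i, ∀ y ∈ U j, c x y = q i j := by
  classical
  choose S hS1 hS2 p hp using stage1 (2 ^ N * k) c
  have key : ∀ i, ∃ q : Fin N → Bool, k ≤ #{x ∈ S i | (fun j : Fin N => p j x) = q} := by
    intro i
    obtain ⟨q, -, hq⟩ := Finset.exists_le_card_fiber_of_mul_le_card_of_maps_to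
      (s := S i) (t := (univ : Finset (Fin N → Bool))) (f := fun x => fun j : Fin N => p j x) (n := k)
      (fun _ _ => mem_univ _) univ_nonempty (by simpa using hS2 i)
    exact ⟨q, hq⟩
  choose q hq using key
  refine ⟨fun i => {x ∈ S i | (fun j : Fin N => p j x) = q i}, fun i j => if h : j < N then q i ⟨j, h⟩ else false,
    fun i => (filter_subset _ _).trans (hS1 i), hq, ?_⟩
  intro i j hij hj x hx y hy
  rw [mem_filter] at hx hy
  have hx' := mem_Ico.1 (hS1 i hx.1)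
  have : x < T (2 ^ N * k) j := lt_of_lt_of_le hx'.2 (T_mono _ (by omega))
  rw [hp j y hy.1 x this]
  show p j x = if h : j < N then q i ⟨j, h⟩ else false
  rw [dif_pos hj, ← hx.2]

lemma exists_blk (K m x : ℕ) (hx : x < T K m) : ∃ i, x < T K (i + 1) :=
  ⟨m, lt_of_lt_of_le hx (T_mono _ (by omega))⟩

/-- index of the block -/
noncomputable def blk (K m : ℕ) (x : Fin (T K m)) : Fin m :=
  ⟨Nat.find (exists_blk K m x x.2), by
    rcases m with _ | m
    · exact absurd x.2 (by simp [T])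
    · exact Nat.lt_succ_of_le (Nat.find_min' _ x.2)⟩

lemma blk_eq {K m : ℕ} {x : Fin (T K m)} {i : Fin m} (h : (x : ℕ) ∈ Ico (T K i) (T K (i+1))) : blk K m x = i := by
  rw [mem_Ico] at h
  apply Fin.ext
  show Nat.find (exists_blk K m x x.2) = i
  rw [Nat.find_eq_iff]
  refine ⟨h.2, fun n hn => ?_⟩
  have := T_mono K (show n + 1 ≤ (i : ℕ) by omega)
  omega

/-- the complete multipartite graph -/
noncomputable def bigF (K m : ℕ) : SimpleGraph (Fin (T K m)) := (⊤ : SimpleGraph (Fin m)).comap (blk K m)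

lemma T_lt {K m i : ℕ} (hK : 0 < K) (hi : i < m) : T K i < T K m := by
  have h1 : T K i < T K (i + 1) := by simp [T, hK]
  exact lt_of_lt_of_le h1 (T_mono K (by omega))

lemma bigF_chrom (K m : ℕ) (hK : 0 < K) : (bigF K m).chromaticNumber = (m : ℕ∞) := by
  apply le_antisymm
  · have : (bigF K m).Coloring (Fin m) := ⟨blk K m, fun {a b} h => h⟩
    simpa using this.colorable.chromaticNumber_le
  · have f : (⊤ : SimpleGraph (Fin m)) →g bigF K m :=
      ⟨fun i => ⟨T K i, T_lt hK i.2⟩, fun {a b} h => by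
        have e : ∀ i : Fin m, blk K m ⟨T K i, T_lt hK i.2⟩ = i := fun i => blk_eq (by simp [T, hK])
        show blk K m _ ≠ blk K m _
        rw [e, e]; exact h⟩
    have := SimpleGraph.chromaticNumber_mono_of_hom f
    simpa [SimpleGraph.chromaticNumber_top] using this

theorem exists_arrows {W : Type*} [Fintype W] (G : SimpleGraph W) (m : ℕ)
    (h : ∀ A : SimpleGraph (Fin m), Nonempty (G →g A) ∨ Nonempty (G →g Aᶜ)) :
    ∃ (n : ℕ) (F : SimpleGraph (Fin n)), F.chromaticNumber = (m : ℕ∞) ∧ Arrows F G := by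
  classical
  set k := Fintype.card W + 1 with hk
  set K := 2 ^ m * k with hK
  have hK0 : 0 < K := by positivity
  refine ⟨T K m, bigF K m, bigF_chrom K m hK0, ?_⟩
  intro c
  let c' : ℕ → ℕ → Bool := fun x y => if hx : x < T K m ∧ y < T K m then c s(⟨x, hx.1⟩, ⟨y, hx.2⟩) else false
  obtain ⟨U, q, hU1, hU2, hU3⟩ := stage2 k m c'
  let A : SimpleGraph (Fin m) := SimpleGraph.fromRel (fun i j => i < j ∧ q i j = true)
  have hlt : ∀ (i : Fin m) (x : ℕ), x ∈ U i → x < T K m := fun i x hx =>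
    lt_of_lt_of_le (mem_Ico.1 (hU1 i hx)).2 (T_mono K (by omega))
  have hemb : ∀ i : Fin m, Nonempty (W ↪ U i) := fun i => by
    apply Function.Embedding.nonempty_of_card_le
    have := hU2 i
    simp only [Fintype.card_coe]
    omega
  let e : ∀ i : Fin m, W ↪ U i := fun i => (hemb i).some
  -- colours
  have hcol : ∀ (i j : Fin m) (x y : ℕ) (hx : x ∈ U i) (hy : y ∈ U j), i < j →
      c s(⟨x, hlt i x hx⟩, ⟨y, hlt j y hy⟩) = q i j := by
    intro i j x y hx hy hij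
    have := hU3 i j hij j.2 x hx y hy
    simp only [c'] at this
    rwa [dif_pos ⟨hlt i x hx, hlt j y hy⟩] at this
  have hblk : ∀ (i : Fin m) (x : ℕ) (hx : x ∈ U i), blk K m ⟨x, hlt i x hx⟩ = i := fun i x hx =>
    blk_eq (hU1 i hx)
  have mk : ∀ f : W → Fin m, ∃ φ : W ↪ Fin (T K m), ∀ w, φ w = ⟨e (f w) w, hlt _ _ (e (f w) w).2⟩ := by
    intro f
    refine ⟨⟨fun w => ⟨e (f w) w, hlt _ _ (e (f w) w).2⟩, ?_⟩, fun w => rfl⟩
    intro w w' hww
    have h1 : blk K m ⟨e (f w) w, hlt _ _ (e (f w) w).2⟩ = blk K m ⟨e (f w') w', hlt _ _ (e (f w') w').2⟩ := by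
      simp only at hww; rw [hww]
    rw [hblk _ _ (e (f w) w).2, hblk _ _ (e (f w') w').2] at h1
    simp only [Fin.mk.injEq] at hww
    have h2 : ∀ i j : Fin m, i = j → ∀ w w' : W, ((e i w : ℕ)) = e j w' → w = w' := by
      rintro i _ rfl w w' hh
      exact (e i).injective (Subtype.ext hh)
    exact h2 _ _ h1 w w' hww
  rcases h A with ⟨⟨f⟩⟩ | ⟨⟨f⟩⟩
  · obtain ⟨φ, hφ⟩ := mk f
    refine ⟨true, φ, fun x y hxy => ?_⟩
    have hA := f.map_adj hxy
    simp only [A, SimpleGraph.fromRel_adj] at hA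
    rw [hφ x, hφ y]
    refine ⟨?_, ?_⟩
    · show blk K m _ ≠ blk K m _
      rw [hblk _ _ (e _ x).2, hblk _ _ (e _ y).2]
      exact hA.1
    · rcases hA.2 with h' | h'
      · rw [hcol _ _ _ _ (e _ x).2 (e _ y).2 h'.1]; exact h'.2
      · rw [Sym2.eq_swap, hcol _ _ _ _ (e _ y).2 (e _ x).2 h'.1]; exact h'.2
  · obtain ⟨φ, hφ⟩ := mk f
    refine ⟨false, φ, fun x y hxy => ?_⟩
    have hA := f.map_adj hxy
    simp only [A, SimpleGraph.compl_adj, SimpleGraph.fromRel_adj] at hA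
    rw [hφ x, hφ y]
    refine ⟨?_, ?_⟩
    · show blk K m _ ≠ blk K m _
      rw [hblk _ _ (e _ x).2, hblk _ _ (e _ y).2]
      exact hA.1
    · rcases lt_or_gt_of_ne hA.1 with h' | h'
      · rw [hcol _ _ _ _ (e _ x).2 (e _ y).2 h']
        by_contra hq
        exact hA.2 ⟨hA.1, Or.inl ⟨h', by simpa using hq⟩⟩
      · rw [Sym2.eq_swap, hcol _ _ _ _ (e _ y).2 (e _ x).2 h']
        by_contra hq
        exact hA.2 ⟨hA.1, Or.inr ⟨h', by simpa using hq⟩⟩

theorem not_arrows {V W : Type*} {F : SimpleGraph V} {G : SimpleGraph W} {m : ℕ} (hF : F.Colorable m)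
    (B : SimpleGraph (Fin m)) (h1 : IsEmpty (G →g B)) (h2 : IsEmpty (G →g Bᶜ)) : ¬ Arrows F G := by
  classical
  intro hA
  obtain ⟨col⟩ := hF
  obtain ⟨b, φ, hφ⟩ := hA (Sym2.lift ⟨fun x y => decide (B.Adj (col x) (col y)), fun x y => by
    simp [B.adj_comm]⟩)
  cases b
  · refine h2.false ⟨fun x => col (φ x), fun {x y} hxy => ?_⟩
    have := hφ x y hxy
    simp only [Sym2.lift_mk, decide_eq_false_iff_not] at this
    exact (SimpleGraph.compl_adj _ _ _).2 ⟨col.valid this.1, this.2⟩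
  · refine h1.false ⟨fun x => col (φ x), fun {x y} hxy => ?_⟩
    have := hφ x y hxy
    simp only [Sym2.lift_mk, decide_eq_true_eq] at this
    exact this.2

/-- if every graph on `m` vertices receives `G` (or its complement does) then `R_χ(G) ≤ m` -/
theorem rchi_le {W : Type*} [Fintype W] (G : SimpleGraph W) (m : ℕ)
    (h : ∀ A : SimpleGraph (Fin m), Nonempty (G →g A) ∨ Nonempty (G →g Aᶜ)) : RChi G ≤ m :=
  Nat.sInf_le (exists_arrows G m h)

theorem lt_rchi {W : Type*} (G : SimpleGraph W) (m : ℕ)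
    (B : SimpleGraph (Fin m)) (h1 : IsEmpty (G →g B)) (h2 : IsEmpty (G →g Bᶜ)) (h0 : RChi G ≠ 0) : m < RChi G := by
  have hne : {N : ℕ | ∃ (n : ℕ) (F : SimpleGraph (Fin n)), F.chromaticNumber = (N : ℕ∞) ∧ Arrows F G}.Nonempty := by
    by_contra hcon
    rw [Set.not_nonempty_iff_eq_empty] at hcon
    exact h0 (by rw [RChi, hcon, Nat.sInf_empty])
  obtain ⟨n, F, hF, hA⟩ := Nat.sInf_mem hne
  change F.chromaticNumber = (RChi G : ℕ∞) at hF
  by_contra hlt
  push Not at hlt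
  refine not_arrows (F := F) ?_ B h1 h2 hA
  rw [← SimpleGraph.chromaticNumber_le_iff_colorable, hF]
  exact_mod_cast hlt

theorem rchi_eq {W : Type*} [Fintype W] (G : SimpleGraph W) (m : ℕ)
    (h : ∀ A : SimpleGraph (Fin (m+1)), Nonempty (G →g A) ∨ Nonempty (G →g Aᶜ))
    (B : SimpleGraph (Fin m)) (h1 : IsEmpty (G →g B)) (h2 : IsEmpty (G →g Bᶜ)) : RChi G = m + 1 := by
  obtain ⟨n, F, hF, hA⟩ := exists_arrows G (m+1) h
  have hne : {N : ℕ | ∃ (n : ℕ) (F : SimpleGraph (Fin n)), F.chromaticNumber = (N : ℕ∞) ∧ Arrows F G}.Nonempty :=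
    ⟨m+1, n, F, by exact_mod_cast hF, hA⟩
  apply le_antisymm (rchi_le G (m+1) h)
  obtain ⟨n', F', hF', hA'⟩ := Nat.sInf_mem hne
  change F'.chromaticNumber = (RChi G : ℕ∞) at hF'
  by_contra hlt
  push Not at hlt
  refine not_arrows (F := F') ?_ B h1 h2 hA'
  rw [← SimpleGraph.chromaticNumber_le_iff_colorable, hF']
  exact_mod_cast Nat.lt_succ_iff.1 hlt

/-! ### The integers 3,4,7,8,9 are not realizable -/

lemma hom_of_colorable {W : Type*} {G : SimpleGraph W} {k m : ℕ} (hG : G.Colorable k) (A : SimpleGraph (Fin m))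
    (v : Fin k → Fin m) (hv : ∀ i j, i ≠ j → A.Adj (v i) (v j)) : Nonempty (G →g A) := by
  obtain ⟨col⟩ := hG
  exact ⟨⟨fun x => v (col x), fun {x y} hxy => hv _ _ (col.valid hxy)⟩⟩

lemma rchi_le_two {W : Type*} [Fintype W] {G : SimpleGraph W} (hG : G.Colorable 2) : RChi G ≤ 2 := by
  apply rchi_le
  intro A
  by_cases h : A.Adj 0 1
  · left
    refine hom_of_colorable hG A ![0, 1] ?_
    intro i j hij
    fin_cases i <;> fin_cases j <;> simp_all [A.adj_comm]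
  · right
    refine hom_of_colorable hG Aᶜ ![0, 1] ?_
    intro i j hij
    fin_cases i <;> fin_cases j <;> simp_all [A.adj_comm, SimpleGraph.compl_adj]

lemma tri_hom {W : Type*} {G : SimpleGraph W} (hG : G.Colorable 3) {m : ℕ} (A : SimpleGraph (Fin m)) {a b c : Fin m}
    (h1 : A.Adj a b) (h2 : A.Adj b c) (h3 : A.Adj a c) : Nonempty (G →g A) := by
  refine hom_of_colorable hG A ![a, b, c] ?_
  intro i j hij
  fin_cases i <;> fin_cases j <;> simp_all [A.adj_comm]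

lemma star_hom {W : Type*} {G : SimpleGraph W} (hG : G.Colorable 3) {m : ℕ} (A : SimpleGraph (Fin m)) {a b c d : Fin m}
    (h1 : A.Adj a b) (h2 : A.Adj a c) (h3 : A.Adj a d) (hbc : b ≠ c) (hcd : c ≠ d) (hbd : b ≠ d) :
    Nonempty (G →g A) ∨ Nonempty (G →g Aᶜ) := by
  by_cases e1 : A.Adj b c
  · exact Or.inl (tri_hom hG A h1 e1 h2)
  by_cases e2 : A.Adj c d
  · exact Or.inl (tri_hom hG A h2 e2 h3)
  by_cases e3 : A.Adj b d
  · exact Or.inl (tri_hom hG A h1 e3 h3)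
  · exact Or.inr (tri_hom hG Aᶜ (a := b) (b := c) (c := d) (by simp [hbc, e1]) (by simp [hcd, e2]) (by simp [hbd, e3]))

lemma rchi_le_six {W : Type*} [Fintype W] {G : SimpleGraph W} (hG : G.Colorable 3) : RChi G ≤ 6 := by
  classical
  apply rchi_le
  intro A
  have key : ∀ A : SimpleGraph (Fin 6), 3 ≤ #(({1, 2, 3, 4, 5} : Finset (Fin 6)).filter (fun x => A.Adj 0 x)) →
      Nonempty (G →g A) ∨ Nonempty (G →g Aᶜ) := by
    intro A hA
    obtain ⟨t, ht, htc⟩ := Finset.exists_subset_card_eq hA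
    obtain ⟨b, c, d, hbc, hbd, hcd, rfl⟩ := Finset.card_eq_three.1 htc
    have hb := (mem_filter.1 (ht (show b ∈ ({b, c, d} : Finset (Fin 6)) by simp))).2
    have hc := (mem_filter.1 (ht (show c ∈ ({b, c, d} : Finset (Fin 6)) by simp))).2
    have hd := (mem_filter.1 (ht (show d ∈ ({b, c, d} : Finset (Fin 6)) by simp))).2
    exact star_hom hG A hb hc hd hbc hcd hbd
  have hsum := Finset.card_filter_add_card_filter_not (s := ({1, 2, 3, 4, 5} : Finset (Fin 6))) (fun x => A.Adj 0 x)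
  rw [show #({1, 2, 3, 4, 5} : Finset (Fin 6)) = 5 from rfl] at hsum
  by_cases h3 : 3 ≤ #(({1, 2, 3, 4, 5} : Finset (Fin 6)).filter (fun x => A.Adj 0 x))
  · exact key A h3
  · have h4 : 3 ≤ #(({1, 2, 3, 4, 5} : Finset (Fin 6)).filter (fun x => Aᶜ.Adj 0 x)) := by
      have : #(({1, 2, 3, 4, 5} : Finset (Fin 6)).filter (fun x => ¬ A.Adj 0 x)) ≤
          #(({1, 2, 3, 4, 5} : Finset (Fin 6)).filter (fun x => Aᶜ.Adj 0 x)) := by
        apply card_le_card
        intro x hx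
        rw [mem_filter] at hx ⊢
        refine ⟨hx.1, ?_⟩
        rw [SimpleGraph.compl_adj]
        refine ⟨?_, hx.2⟩
        rintro rfl
        exact absurd hx.1 (by decide)
      omega
    have := key Aᶜ (by convert h4)
    rw [compl_compl] at this
    exact this.symm

/-- grid graph -/
def grid (k : ℕ) : SimpleGraph (Fin (k * k)) where
  Adj x y := x ≠ y ∧ (x : ℕ) / k = y / k
  symm := ⟨fun _ _ h => ⟨h.1.symm, h.2.symm⟩⟩
  loopless := ⟨fun _ h => h.1 rfl⟩

lemma grid_col (k : ℕ) (hk : 0 < k) : (grid k).Colorable k := by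
  refine ⟨⟨fun x => ⟨(x : ℕ) % k, Nat.mod_lt _ hk⟩, fun {x y} h => ?_⟩⟩
  intro h'
  simp only [Fin.mk.injEq] at h'
  apply h.1
  apply Fin.ext
  rw [← Nat.div_add_mod (x : ℕ) k, ← Nat.div_add_mod (y : ℕ) k, h', h.2]

lemma grid_compl_col (k : ℕ) : (grid k)ᶜ.Colorable k := by
  refine ⟨⟨fun x => ⟨(x : ℕ) / k, Nat.div_lt_of_lt_mul x.2⟩, fun {x y} h => ?_⟩⟩
  intro h'
  simp only [Fin.mk.injEq] at h'
  rw [SimpleGraph.compl_adj] at h
  exact h.2 ⟨h.1, h'⟩

lemma sq_lt_rchi {W : Type*} {G : SimpleGraph W} (k : ℕ) (hk : 0 < k) (hG : ¬ G.Colorable k) (h0 : RChi G ≠ 0) :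
    k * k < RChi G := by
  refine lt_rchi G (k * k) (grid k) ⟨fun f => hG ?_⟩ ⟨fun f => hG ?_⟩ h0
  · exact (grid_col k hk).of_hom f
  · exact (grid_compl_col k).of_hom f

theorem not_realizable {W : Type*} [Fintype W] (G : SimpleGraph W) :
    RChi G ≠ 3 ∧ RChi G ≠ 4 ∧ RChi G ≠ 7 ∧ RChi G ≠ 8 ∧ RChi G ≠ 9 := by
  by_cases h0 : RChi G = 0
  · simp [h0]
  by_cases h2 : G.Colorable 2
  · have := rchi_le_two h2; omega
  have h4 := sq_lt_rchi 2 (by norm_num) h2 h0
  by_cases h3 : G.Colorable 3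
  · have := rchi_le_six h3; omega
  have h9 := sq_lt_rchi 3 (by norm_num) h3 h0
  omega

theorem rchi_one : RChi (⊥ : SimpleGraph (Fin 1)) = 1 := by
  refine rchi_eq _ 0 (fun A => Or.inl ⟨⟨fun _ => 0, fun h => absurd h (by simp)⟩⟩) ⊥ ⟨fun f => (f 0).elim0⟩ ⟨fun f => (f 0).elim0⟩

end Pool.Agent.H10.Chr
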