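import Mathlib
import Pool.Agent.H10.Chr.Chk

/-! # Certificates for `N = 12, 13, 14, 15` -/

namespace Pool.Agent.H10.Chr

open Finset

/-- fractional cover of the vertices by independent sets: `R` independent sets, every vertex in at least `r` of them -/
def Cover {n : ℕ} (X : SimpleGraph (Fin n)) (R r : ℕ) : Prop :=
  ∃ I : Fin R → Finset (Fin n), (∀ t, X.IsIndepSet (I t : Set (Fin n))) ∧ ∀ v, r ≤ #{t | v ∈ I t}

/-- rows from a list -/
def rw (L : List ℕ) (x : ℕ) : ℕ := L.getD x 0

/-- symmetric, loopless check and complement check -/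
def chkRows (n : ℕ) (L L' : List ℕ) : Bool :=
  (List.range n).all fun x => (List.range n).all fun y =>
    ((rw L x).testBit y == (rw L y).testBit x) && ((rw L' x).testBit y == (!(x == y) && !(rw L x).testBit y)) &&
      (!(x == y) || !(rw L x).testBit y)

lemma chkRows_get {n : ℕ} {L L' : List ℕ} (h : chkRows n L L' = true) (x y : Fin n) :
    (rw L x).testBit y = (rw L y).testBit x ∧ (rw L' x).testBit y = (!((x : ℕ) == y) && !(rw L x).testBit y) ∧
      ((x : ℕ) = y → (rw L x).testBit y = false) := by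
  unfold chkRows at h
  have h1 := List.all_eq_true.1 (List.all_eq_true.1 h x (List.mem_range.2 x.2)) y (List.mem_range.2 y.2)
  simp only [Bool.and_eq_true, Bool.or_eq_true, Bool.not_eq_true', beq_iff_eq, beq_eq_false_iff_ne] at h1
  refine ⟨h1.1.1, h1.1.2, fun e => ?_⟩
  rcases h1.2 with h | h
  · exact absurd e h
  · exact h

/-- graph from rows -/
def gr {n : ℕ} (L : List ℕ) (L' : List ℕ) (h : chkRows n L L' = true) : SimpleGraph (Fin n) where
  Adj x y := (rw L x).testBit y = true
  symm := ⟨fun x y hxy => by rw [← (chkRows_get h x y).1]; exact hxy⟩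
  loopless := ⟨fun x hx => by rw [(chkRows_get h x x).2.2 rfl] at hx; exact absurd hx (by decide)⟩

lemma gr_compl {n : ℕ} {L L' : List ℕ} (h : chkRows n L L' = true) (x y : Fin n) :
    (gr L L' h)ᶜ.Adj x y ↔ (rw L' x).testBit y = true := by
  rw [(chkRows_get h x y).2.1, SimpleGraph.compl_adj]
  show x ≠ y ∧ ¬ ((rw L x).testBit y = true) ↔ _
  simp [Fin.ext_iff]

/-- cover check -/
def chkCov (n R r : ℕ) (L C : List ℕ) : Bool :=
  ((List.range R).all fun t => (List.range n).all fun x => (List.range n).all fun y =>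
    !(rw C t).testBit x || !(rw C t).testBit y || !(rw L x).testBit y) &&
  ((List.range n).all fun x => decide (r ≤ #{t : Fin R | (rw C t).testBit x = true}))

lemma cover_of_chk {n R r : ℕ} (X : SimpleGraph (Fin n)) (L C : List ℕ)
    (hX : ∀ x y : Fin n, X.Adj x y ↔ (rw L x).testBit y = true) (h : chkCov n R r L C = true) : Cover X R r := by
  unfold chkCov at h
  rw [Bool.and_eq_true] at h
  refine ⟨fun t => {v : Fin n | (rw C t).testBit v = true}, ?_, ?_⟩
  · intro t x hx y hy _ hxy
    have h1 := List.all_eq_true.1 (List.all_eq_true.1 (List.all_eq_true.1 h.1 t (List.mem_range.2 t.2)) x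
      (List.mem_range.2 x.2)) y (List.mem_range.2 y.2)
    rw [hX] at hxy
    simp only [coe_filter, mem_univ, true_and, Set.mem_ofPred_eq] at hx hy
    simp [hx, hy, hxy] at h1
  · intro v
    have h1 := List.all_eq_true.1 h.2 v (List.mem_range.2 v.2)
    simpa using of_decide_eq_true h1

/-- first element of `ord` in the mask -/
def psiOrd (ord : List ℕ) (m : ℕ) : ℕ := (ord.find? fun v => m.testBit v).getD 0

/-! ### N = 12 -/

def a12 : List ℕ := [2528, 1368, 696, 3094, 2574, 3205, 2819, 1573, 1603, 3540, 2986, 1657]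

def b12 : List ℕ := [1566, 2725, 3395, 993, 1505, 858, 1212, 2394, 2236, 43, 85, 390]

lemma rows12 : chkRows 12 a12 b12 = true := by decide +kernel

def M12 : SimpleGraph (Fin 12) := gr a12 b12 rows12

lemma lab12_0 : Labelling M12 :=
  labelling_of_chk M12 (rw a12) (psiOrd [0, 1, 2, 8, 3, 7, 4, 5, 6, 9, 10, 11])
    (fun x y => Iff.rfl) (by decide +kernel)

lemma cov12_0 : Cover M12 4 1 :=
  cover_of_chk M12 a12 [7, 552, 1104, 2432]
    (fun x y => Iff.rfl) (by decide +kernel)

lemma lab12_1 : Labelling M12ᶜ :=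
  labelling_of_chk M12ᶜ (rw b12) (psiOrd [11, 10, 9, 8, 7, 6, 5, 4, 3, 2, 1, 0])
    (gr_compl rows12) (by decide +kernel)

lemma cov12_1 : Cover M12ᶜ 4 1 :=
  cover_of_chk M12ᶜ b12 [161, 322, 28, 3584]
    (gr_compl rows12) (by decide +kernel)

/-! ### N = 13 -/

def a13 : List ℕ := [4456, 2260, 7298, 6913, 2914, 5329, 1587, 5670, 3609, 5592, 3044, 5406, 2733]

def b13 : List ℕ := [3734, 5929, 889, 1270, 5261, 2830, 6540, 2393, 4326, 2087, 4123, 737, 1362]

lemma rows13 : chkRows 13 a13 b13 = true := by decide +kernel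

def M13 : SimpleGraph (Fin 13) := gr a13 b13 rows13

lemma lab13_0 : Labelling M13 :=
  labelling_of_chk M13 (rw a13) (psiOrd [4, 1, 5, 0, 6, 7, 2, 3, 8, 9, 10, 11, 12])
    (fun x y => Iff.rfl) (by decide +kernel)

lemma cov13_0 : Cover M13 13 3 :=
  cover_of_chk M13 a13 [515, 515, 2177, 1034, 28, 44, 292, 5136, 5136, 2592, 448, 2240, 4416]
    (fun x y => Iff.rfl) (by decide +kernel)

lemma lab13_1 : Labelling M13ᶜ :=
  labelling_of_chk M13ᶜ (rw b13) (psiOrd [11, 0, 1, 12, 2, 3, 9, 10, 4, 5, 6, 7, 8])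
    (gr_compl rows13) (by decide +kernel)

lemma cov13_1 : Cover M13ᶜ 13 3 :=
  cover_of_chk M13ᶜ b13 [265, 265, 4105, 134, 2054, 2066, 3076, 112, 112, 1120, 4736, 4736, 1792]
    (gr_compl rows13) (by decide +kernel)

/-! ### N = 14 -/

def a14 : List ℕ := [9442, 4817, 14888, 15380, 6474, 10565, 2355, 13827, 13936, 11654, 7049, 1660, 1438, 941]

def b14 : List ℕ := [6940, 11564, 1491, 995, 9893, 5786, 13964, 2428, 2191, 4217, 8310, 12675, 10849, 7250]

lemma rows14 : chkRows 14 a14 b14 = true := by decide +kernel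

def M14 : SimpleGraph (Fin 14) := gr a14 b14 rows14

lemma lab14_0 : Labelling M14 :=
  labelling_of_chk M14 (rw a14) (psiOrd [6, 1, 8, 7, 0, 9, 3, 4, 10, 2, 5, 11, 12, 13])
    (fun x y => Iff.rfl) (by decide +kernel)

lemma cov14_0 : Cover M14 14 3 :=
  cover_of_chk M14 a14 [21, 21, 21, 42, 1058, 9218, 552, 392, 4672, 4672, 9280, 2432, 2432, 14336]
    (fun x y => Iff.rfl) (by decide +kernel)

lemma lab14_1 : Labelling M14ᶜ :=
  labelling_of_chk M14ᶜ (rw b14) (psiOrd [13, 12, 10, 6, 5, 11, 9, 8, 7, 4, 3, 2, 1, 0])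
    (gr_compl rows14) (by decide +kernel)

lemma cov14_1 : Cover M14ᶜ 14 3 :=
  cover_of_chk M14ᶜ b14 [67, 67, 67, 2060, 2084, 8228, 2072, 4120, 4368, 8480, 1664, 1664, 8832, 5376]
    (gr_compl rows14) (by decide +kernel)

/-! ### N = 15 -/

def a15 : List ℕ := [7362, 24785, 10856, 14516, 18858, 4956, 22567, 9499, 22192, 27940, 15233, 18013, 25961, 22158, 15186]

def b15 : List ℕ := [25404, 7980, 21907, 18243, 13893, 27779, 10136, 23140, 10319, 4315, 16510, 12706, 2710, 2417, 1197]

lemma rows15 : chkRows 15 a15 b15 = true := by decide +kernel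

def M15 : SimpleGraph (Fin 15) := gr a15 b15 rows15

lemma lab15_0 : Labelling M15 :=
  labelling_of_chk M15 (rw a15) (psiOrd [11, 9, 14, 2, 5, 6, 4, 12, 8, 0, 13, 7, 10, 1, 3])
    (fun x y => Iff.rfl) (by decide +kernel)

lemma cov15_0 : Cover M15 5 1 :=
  cover_of_chk M15 a15 [21, 522, 17440, 8512, 6272]
    (fun x y => Iff.rfl) (by decide +kernel)

def tab15 : ℕ := 30162538999890273480667218242758621829747829158401118429988322399023011462943364833650721317421385899442764680762437716107111621764621804024339534830409452104619269459791623282557577903283715817483884672255506568107881014360996168464425084285160653524571143335543325089253134374316941342684960199451550091320940194255289344280750109451900623946304756514429442451760038782767681487297586166023352344570296427467700475128319488481203347852397657063336511076447654099330708691636082693706669592676730460305233898760782229010058019233258323344747325365925247839157750337956519683540552119780121753027600520920103674577162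

def psi15 (m : ℕ) : ℕ :=
  bif m.testBit ((tab15 >>> (4 * (m % 512))) % 16) then (tab15 >>> (4 * (m % 512))) % 16 else Nat.log2 m

lemma lab15_1 : Labelling M15ᶜ :=
  labelling_of_chk M15ᶜ (rw b15) (psi15)
    (gr_compl rows15) (by decide +kernel)

lemma cov15_1 : Cover M15ᶜ 5 1 :=
  cover_of_chk M15ᶜ b15 [67, 44, 400, 3584, 28672]
    (gr_compl rows15) (by decide +kernel)

end Pool.Agent.H10.Chr
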