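import Mathlib
import Pool.Agent.H41.Chr.Cov
import Pool.Agent.H41.Chr.Core
import Pool.Agent.H10.Chr.Small
import Pool.Agent.H10.Chr.Chk5

/-! # Selectors for `N = 22, 23, 24` and `N = 12, ..., 15` -/

namespace Pool.Agent.H10.Chr

open Finset Pool.Agent.H41.Chr

/-- check of the rows of a circulant -/
def chkCirc (N a : ℕ) (D L : List ℕ) : Bool :=
  (List.range N).all fun x => (List.range N).all fun y =>
    (rw L x).testBit y == (!(x == y) && !(Nat.ble a (cdist N x y) && !(D.elem (cdist N x y))))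

lemma rows_circ {N a : ℕ} {D L : List ℕ} (h : chkCirc N a D L = true) (x y : Fin N) :
    (circ N (RC a D))ᶜ.Adj x y ↔ (rw L x).testBit y = true := by
  unfold chkCirc at h
  have h1 := List.all_eq_true.1 (List.all_eq_true.1 h x (List.mem_range.2 x.2)) y (List.mem_range.2 y.2)
  rw [beq_iff_eq] at h1
  rw [h1, SimpleGraph.compl_adj]
  show x ≠ y ∧ ¬ (x ≠ y ∧ (a ≤ cdist N x y ∧ cdist N x y ∉ D)) ↔ _
  simp only [Bool.and_eq_true, Bool.not_eq_true', beq_eq_false_iff_ne, Bool.and_eq_false_iff,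
    Bool.not_eq_false', List.elem_eq_mem, decide_eq_true_eq, ne_eq, Fin.ext_iff]
  constructor
  · rintro ⟨h2, h3⟩
    refine ⟨h2, ?_⟩
    by_cases h4 : a ≤ cdist N x y
    · right
      by_contra h5
      exact h3 ⟨h2, h4, h5⟩
    · left
      rw [← Bool.not_eq_true, Nat.ble_eq]; exact h4
  · rintro ⟨h2, h3⟩
    refine ⟨h2, ?_⟩
    rintro ⟨-, h4, h5⟩
    rcases h3 with h3 | h3
    · rw [← Bool.not_eq_true, Nat.ble_eq] at h3; exact h3 h4
    · exact h5 h3

lemma rw_lt {N : ℕ} {L : List ℕ} (h : (L.all fun m => Nat.blt m (2 ^ N)) = true) (x : ℕ) : rw L x < 2 ^ N := by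
  unfold rw
  by_cases hx : x < L.length
  · rw [List.getD_eq_getElem _ _ hx]
    have := List.all_eq_true.1 h _ (List.getElem_mem hx)
    simpa using this
  · rw [List.getD_eq_default _ _ (by omega)]
    positivity

theorem sel_22 : HasSel 5 (circ 22 (RC 4 [8, 10]))ᶜ :=
  hasSel_of_chk5 _ (rw [3691790, 3189277, 2184251, 174199, 348398, 696796, 1393592, 2787184, 1380065, 2760130, 1325957, 2651914, 1109525, 2219050, 243797, 487594, 975188, 1950376, 3900752, 3607201, 3020099, 1845895]) (psiOrd [18, 17, 16, 15, 14, 21, 19, 13, 20, 12, 11, 10, 9, 8, 7, 6, 5, 4, 3, 2, 1, 0])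
    (rows_circ (by decide +kernel)) (rw_lt (by decide +kernel)) (by decide +kernel)

theorem sel_23 : HasSel 5 (circ 23 (RC 4 [5, 11]))ᶜ :=
  hasSel_of_chk5 _ (rw [7608366, 6828125, 5267643, 2146679, 4293358, 198109, 396218, 792436, 1584872, 3169744, 6339488, 4290369, 192131, 384262, 768524, 1537048, 3074096, 6148192, 3907777, 7815554, 7242501, 6096395, 3804183]) (psiOrd [22, 21, 20, 19, 18, 17, 16, 15, 14, 13, 12, 11, 10, 9, 8, 7, 6, 5, 4, 3, 2, 1, 0])
    (rows_circ (by decide +kernel)) (rw_lt (by decide +kernel)) (by decide +kernel)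

theorem sel_24 : HasSel 5 (circ 24 (RC 4 [9, 10, 12]))ᶜ :=
  hasSel_of_chk5 _ (rw [14734862, 12692509, 8607803, 438391, 876782, 1753564, 3507128, 7014256, 14028512, 11279809, 5782403, 11564806, 6352397, 12704794, 8632373, 487531, 975062, 1950124, 3900248, 7800496, 15600992, 14424769, 12072323, 7367431]) (psiOrd [8, 6, 7, 10, 3, 1, 5, 9, 0, 2, 11, 12, 13, 14, 15, 16, 17, 4, 18, 19, 20, 21, 22, 23])
    (rows_circ (by decide +kernel)) (rw_lt (by decide +kernel)) (by decide +kernel)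

lemma Labelling.hasSel {V : Type*} {X : SimpleGraph V} (h : Labelling X) : HasSel 4 X := by
  obtain ⟨ψ, h1, h2⟩ := h
  refine ⟨ψ, fun f => ?_, fun f g hf hg hfg => h2 f g hf hg hfg⟩
  obtain ⟨i, hi⟩ := h1 f
  exact ⟨i, hi.symm⟩

lemma Cover.fracCov {n R r : ℕ} {X : SimpleGraph (Fin n)} (h : Cover X R r) : FracCov R r X := by
  obtain ⟨I, hI, hr⟩ := h
  refine ⟨fun t v => v ∈ I t, fun t x y hx hy hxy => hI t hx hy hxy.ne hxy, fun v => ⟨_, hr v, ?_⟩⟩
  intro t ht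
  simpa using ht

theorem small_12 : ∃ M : SimpleGraph (Fin 12), Blocks 13 3 M ∧ Blocks 13 3 Mᶜ :=
  ⟨M12, blocks_of_sel 13 3 4 1 _ (by norm_num) cov12_0.fracCov lab12_0.hasSel,
    blocks_of_sel 13 3 4 1 _ (by norm_num) cov12_1.fracCov lab12_1.hasSel⟩

theorem small_13 : ∃ M : SimpleGraph (Fin 13), Blocks 14 3 M ∧ Blocks 14 3 Mᶜ :=
  ⟨M13, blocks_of_sel 14 3 13 3 _ (by norm_num) cov13_0.fracCov lab13_0.hasSel,
    blocks_of_sel 14 3 13 3 _ (by norm_num) cov13_1.fracCov lab13_1.hasSel⟩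

theorem small_14 : ∃ M : SimpleGraph (Fin 14), Blocks 15 3 M ∧ Blocks 15 3 Mᶜ :=
  ⟨M14, blocks_of_sel 15 3 14 3 _ (by norm_num) cov14_0.fracCov lab14_0.hasSel,
    blocks_of_sel 15 3 14 3 _ (by norm_num) cov14_1.fracCov lab14_1.hasSel⟩

theorem small_15 : ∃ M : SimpleGraph (Fin 15), Blocks 16 3 M ∧ Blocks 16 3 Mᶜ :=
  ⟨M15, blocks_of_sel 16 3 5 1 _ (by norm_num) cov15_0.fracCov lab15_0.hasSel,
    blocks_of_sel 16 3 5 1 _ (by norm_num) cov15_1.fracCov lab15_1.hasSel⟩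

end Pool.Agent.H10.Chr
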